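import Pool.Agent.N43.SC.Final

set_option autoImplicit false

/-! # Many `3x+k` maps have no primitive cycle of period at most `k^θ`

For `θ < 1/3` at least the proportion `1 - 3θ` of the positive integers `k ≡ ±1 (mod 6)` has the property
that `T_k` has no primitive integer cycle of period at most `k^θ`. Lagarias (1990) proved that infinitely
many `k` have no primitive integer cycle of period less than `k^(1/3)`.

Method: `N43.SC.part_b`. A primitive cycle of period `n` with `j` odd elements forces `k ∣ 2^n - 3^j`, so the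
prime factors of `k` belong to a set of at most `2 K^(3θ)` primes; the sum of `log p / p` over such a set is
at most `3θ log K + O(1)`, which is compared with the sum of the logarithms of these `k`.

Author: helper43. -/

namespace Pool.Agent.Results.MP_9c4f7e_nt.NoShortPrimitiveCycle

open Finset

/-- The `3x+k` map on the integers. -/
def T (k x : ℤ) : ℤ := if Even x then x / 2 else (3 * x + k) / 2

/-- `N(L, K)`: the number of the positive integers `k ≤ K` prime to `6` (that is, `k ≡ ±1 (mod 6)`) such that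
`T_k^n x ≠ x` for all integers `x` prime to `k` and all `1 ≤ n ≤ L`: the map `T_k` has no primitive integer
cycle of period at most `L`. -/
noncomputable def N (L K : ℝ) : ℕ :=
  Nat.card {k : ℕ // Nat.Coprime k 6 ∧ (k : ℝ) ≤ K ∧
    ∀ x : ℤ, IsCoprime x k → ∀ n : ℕ, 1 ≤ n → (n : ℝ) ≤ L → (T k)^[n] x ≠ x}

lemma coprime_count (m : ℕ) :
    2 * (m / 6) ≤ ((Icc 1 m).filter fun k => Nat.Coprime k 6).card := by
  have h1 : ((range (m / 6)).image fun j => 6 * j + 1) ∪ ((range (m / 6)).image fun j => 6 * j + 5) ⊆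
      (Icc 1 m).filter fun k => Nat.Coprime k 6 := by
    intro k hk
    rw [mem_union, mem_image, mem_image] at hk
    rw [mem_filter, mem_Icc]
    rcases hk with ⟨j, hj, rfl⟩ | ⟨j, hj, rfl⟩
    · rw [mem_range] at hj
      refine ⟨by omega, ?_⟩
      rw [Nat.coprime_comm, Nat.coprime_mul_left_add_right]
      norm_num
    · rw [mem_range] at hj
      refine ⟨by omega, ?_⟩
      rw [Nat.coprime_comm, Nat.coprime_mul_left_add_right]
      norm_num
  have h2 : Disjoint ((range (m / 6)).image fun j => 6 * j + 1)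
      ((range (m / 6)).image fun j => 6 * j + 5) := by
    rw [disjoint_left]
    intro k hk hk'
    rw [mem_image] at hk hk'
    obtain ⟨i, -, rfl⟩ := hk
    obtain ⟨j, -, hj⟩ := hk'
    omega
  refine le_trans ?_ (card_le_card h1)
  rw [card_union_of_disjoint h2, card_image_of_injective _ (fun a b h => by simpa using h),
    card_image_of_injective _ (fun a b h => by simpa using h), card_range]
  omega

/-- For `θ < 1/3` at least the proportion `1 - 3θ - o(1)` of the `k ≤ K` with `k ≡ ±1 (mod 6)` has no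
primitive integer cycle of period at most `K^θ`. -/
theorem result : ∀ θ ε : ℝ, 0 < θ → θ < 1 / 3 → 0 < ε →
    ∃ K₀ : ℝ, ∀ K ≥ K₀, (1 / 3 - θ - ε) * K ≤ (N (K ^ θ) K : ℝ) := by
  classical
  intro θ ε hθ hθ1 hε
  obtain ⟨D₀, hD₀⟩ := Pool.Agent.N43.SC.part_b θ (ε / 2) hθ hθ1 (by linarith)
  refine ⟨max (max D₀ 1) (4 / ε), fun K hK => ?_⟩
  have hKD : D₀ ≤ K := le_trans (le_trans (le_max_left _ _) (le_max_left _ _)) hK
  have hK1 : 1 ≤ K := le_trans (le_trans (le_max_right _ _) (le_max_left _ _)) hK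
  have hKε : 2 ≤ ε / 2 * K := by
    have h1 : 4 / ε ≤ K := le_trans (le_max_right _ _) hK
    rw [div_le_iff₀ hε] at h1
    linarith
  have hb := hD₀ K hKD
  set L := K ^ θ with hL
  set m := ⌊K⌋₊ with hm
  -- the good and the bad `k`
  set G := (Icc 1 m).filter fun k : ℕ => Nat.Coprime k 6 ∧
    ∀ x : ℤ, IsCoprime x k → ∀ n : ℕ, 1 ≤ n → (n : ℝ) ≤ L → (T k)^[n] x ≠ x with hG
  set A := (Icc 1 m).filter fun k : ℕ => Odd k ∧ Pool.Agent.N43.SC.ShortR L k with hA
  have hGN : N L K = G.card := by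
    refine Nat.subtype_card _ fun k => ?_
    rw [hG, mem_filter, mem_Icc]
    constructor
    · rintro ⟨⟨-, h2⟩, h3, h4⟩
      exact ⟨h3, (Nat.le_floor_iff (by linarith)).1 h2, h4⟩
    · rintro ⟨h3, h2, h4⟩
      refine ⟨⟨?_, (Nat.le_floor_iff (by linarith)).2 h2⟩, h3, h4⟩
      rcases Nat.eq_zero_or_pos k with h0 | h0
      · rw [h0] at h3
        norm_num at h3
      · exact h0
  have hAN : Pool.Agent.N43.SC.cnt L K = A.card := by
    refine Nat.subtype_card _ fun k => ?_
    rw [hA, mem_filter, mem_Icc]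
    constructor
    · rintro ⟨⟨-, h2⟩, h3, h4⟩
      exact ⟨h3, (Nat.le_floor_iff (by linarith)).1 h2, h4⟩
    · rintro ⟨h3, h2, h4⟩
      exact ⟨⟨h3.pos, (Nat.le_floor_iff (by linarith)).2 h2⟩, h3, h4⟩
  have hcov : ((Icc 1 m).filter fun k => Nat.Coprime k 6) ⊆ G ∪ A := by
    intro k hk
    rw [mem_filter] at hk
    rw [mem_union, hG, hA, mem_filter, mem_filter]
    by_cases hs : Pool.Agent.N43.SC.ShortR L k
    · refine Or.inr ⟨hk.1, ?_, hs⟩
      have h2 : Nat.Coprime k 2 := Nat.Coprime.coprime_dvd_right (by norm_num) hk.2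
      exact Nat.coprime_two_right.1 h2
    · refine Or.inl ⟨hk.1, hk.2, fun x hx n hn hnL hT => hs ⟨x, hx, n, hn, hnL, hT⟩⟩
  have h1 := (coprime_count m).trans ((card_le_card hcov).trans (card_union_le _ _))
  rw [hGN]
  rw [hAN] at hb
  have h2 : (2 : ℝ) * ((m / 6 : ℕ) : ℝ) ≤ (G.card : ℝ) + (A.card : ℝ) := by exact_mod_cast h1
  have h3 : K / 3 - 2 ≤ 2 * ((m / 6 : ℕ) : ℝ) := by
    have h4 : K < (m : ℝ) + 1 := Nat.lt_floor_add_one K
    have h5 : m < 6 * (m / 6) + 6 := by omega
    have h6 : (m : ℝ) + 1 ≤ 6 * ((m / 6 : ℕ) : ℝ) + 6 := by exact_mod_cast h5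
    linarith
  nlinarith

end Pool.Agent.Results.MP_9c4f7e_nt.NoShortPrimitiveCycle
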